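import Mathlib
import Pool.Agent.H759R2.Kad.Props6

open scoped ComplexOrder InnerProductSpace ComplexConjugate
open Finset

noncomputable section

namespace H759R2.Kad

universe u v

theorem prove6_trace (h1 : W_sub.{u}) (h2 : W_faith.{u}) (h3 : W_near.{u}) (h4 : W_all.{u})
    (h5 : W_cop.{u}) (h6 : W_psi.{u}) (h7 : W_lim.{u}) : W_trace.{u} := by
  intro A _ hA z hz hz0 hf
  obtain ⟨φ, hφ, hφz⟩ := hA.sep z hz.1 hz0
  obtain ⟨s, hs, hzs, hs0, hfaith⟩ := h2 A hA φ hφ z hz.1 hφz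
  have hsF : Fnt s := h1 A z s hz.1 hs hzs hf
  apply h7 A z
  intro ε hε
  obtain ⟨p, hp, hsp, hp0, hnear⟩ := h3 A hA φ hφ s hs hs0 hsF hfaith ε hε
  have hall := h4 A hA φ hφ p hp ε hε.le hnear
  have hzp : z * p = p := by
    rw [← hsp, ← mul_assoc, hzs]
  obtain ⟨g, hg, hzg, hg0, n, w, hw, hsum⟩ := h5 A hA z hz hf p hp hzp hp0
  refine h6 A φ hφ.pos p g z hp hg hg0 hz hzg ?_ n w hw hsum ε hε.le hall
  intro e he hpe h0
  refine hfaith e he ?_ h0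
  rw [← hpe, ← mul_assoc, hsp]

end H759R2.Kad
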