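import Mathlib
import Pool.Agent.H759R2.Kad.Props6

open scoped ComplexOrder InnerProductSpace ComplexConjugate
open Finset

noncomputable section

namespace H759R2.Kad

universe u v

theorem prove6_vn (h1 : W_comp.{u}) (h2 : W_tup.{u}) (h3 : W_trace.{u}) (h4 : W_isom.{u}) :
    W_vn.{u} := by
  intro A _ hA
  refine ⟨h1 A hA, h2 A hA, hA.spec, ?_⟩
  intro e he hno
  refine h4 A hA e he ?_
  intro z hz hez hf
  by_contra hz0
  exact hno z hz hez hz0 (h3 A hA z hz hz0 hf)

end H759R2.Kad
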